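import Pool.Agent.W711.CR.Stm

/-!
Project CR (helper711), part CR-TD: the matrix group has the data TData.
-/

set_option autoImplicit false

namespace Pool.Agent.W933.CR

open Pool.Agent.W711.CR Polynomial

noncomputable section

variable {k : Type} [Field k]

theorem tv_add (i j : Fin 3) (h : i ≠ j) (a b : Polynomial k) :
    tv i j h (a + b) = tv i j h a * tv i j h b := by
  refine LinearEquiv.ext fun v => funext fun m => ?_
  rw [LinearEquiv.mul_apply, tv_apply, tv_apply, tv_apply]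
  simp only [Pi.add_apply, Pi.single_eq_of_ne (Ne.symm h), add_zero]
  by_cases hm : m = i
  · subst hm; simp; ring
  · simp [hm]

theorem tv_comm (i j l : Fin 3) (hij : i ≠ j) (hjl : j ≠ l) (hil : i ≠ l) (a b : Polynomial k) :
    tv i j hij a * tv j l hjl b = tv j l hjl b * tv i j hij a * tv i l hil (a * b) := by
  refine LinearEquiv.ext fun v => funext fun m => ?_
  simp only [LinearEquiv.mul_apply, tv_apply, Pi.add_apply, Pi.single_eq_same,
    Pi.single_eq_of_ne (Ne.symm hij), Pi.single_eq_of_ne (Ne.symm hil), add_zero]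
  by_cases hm : m = i
  · subst hm
    simp [hij]
    ring
  · by_cases hm' : m = j
    · subst hm'; simp [hm]
    · simp [hm, hm']

theorem tv_comm_left (i j l : Fin 3) (hij : i ≠ j) (hil : i ≠ l) (a c : Polynomial k) :
    tv i l hil c * tv i j hij a = tv i j hij a * tv i l hil c := by
  refine LinearEquiv.ext fun v => funext fun m => ?_
  simp only [LinearEquiv.mul_apply, tv_apply, Pi.add_apply,
    Pi.single_eq_of_ne (Ne.symm hij), Pi.single_eq_of_ne (Ne.symm hil), add_zero]
  ring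

theorem tv_comm_right (i j l : Fin 3) (hjl : j ≠ l) (hil : i ≠ l) (b c : Polynomial k) :
    tv i l hil c * tv j l hjl b = tv j l hjl b * tv i l hil c := by
  refine LinearEquiv.ext fun v => funext fun m => ?_
  simp only [LinearEquiv.mul_apply, tv_apply, Pi.add_apply,
    Pi.single_eq_of_ne (Ne.symm hjl), Pi.single_eq_of_ne (Ne.symm hil), add_zero]
  ring

theorem mem01 (a : k) : tv 0 1 (by decide) (C a) ∈ Gam k :=
  Subgroup.subset_closure (Or.inl (Or.inl ⟨a, rfl⟩))

theorem mem12 (a : k) : tv 1 2 (by decide) (C a) ∈ Gam k :=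
  Subgroup.subset_closure (Or.inl (Or.inr ⟨a, rfl⟩))

theorem mem20 (a : k) : tv 2 0 (by decide) (C a * X) ∈ Gam k :=
  Subgroup.subset_closure (Or.inr ⟨a, rfl⟩)

theorem mem_comm {i j l : Fin 3} {hij : i ≠ j} {hjl : j ≠ l} {a b : Polynomial k}
    (h1 : tv i j hij a ∈ Gam k) (h2 : tv j l hjl b ∈ Gam k) (hil : i ≠ l) :
    tv i l hil (a * b) ∈ Gam k := by
  have h3 := tv_comm i j l hij hjl hil a b
  have h4 : tv i l hil (a * b) =
      (tv j l hjl b * tv i j hij a)⁻¹ * (tv i j hij a * tv j l hjl b) := by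
    rw [h3, inv_mul_cancel_left]
  rw [h4]
  exact mul_mem (inv_mem (mul_mem h2 h1)) (mul_mem h1 h2)

theorem mem02 (a : k) : tv 0 2 (by decide) (C a) ∈ Gam k := by
  have h := mem_comm (mem01 a) (mem12 (1 : k)) (by decide)
  rwa [C_1, mul_one] at h

theorem mem10 (a : k) : tv 1 0 (by decide) (C a * X) ∈ Gam k := by
  have h := mem_comm (mem12 a) (mem20 (1 : k)) (by decide)
  rwa [C_1, one_mul] at h

theorem mem21 (a : k) : tv 2 1 (by decide) (C a * X) ∈ Gam k := by
  have h := mem_comm (mem20 a) (mem01 (1 : k)) (by decide)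
  rwa [C_1, mul_one] at h

/-- the inclusion of the matrix group -/
abbrev ir (g : Gam k) : GG k := SemidirectProduct.inr g

/-- the generators -/
def xx (i : Fin 3) (a : k) : GG k :=
  match i with
  | 0 => ir ⟨_, mem01 a⟩
  | 1 => ir ⟨_, mem12 a⟩
  | 2 => ir ⟨_, mem20 a⟩

/-- the commutators -/
def zz (i : Fin 3) (a : k) : GG k :=
  match i with
  | 0 => ir ⟨_, mem02 a⟩
  | 1 => ir ⟨_, mem10 a⟩
  | 2 => ir ⟨_, mem21 a⟩

theorem heis_gen (i j l : Fin 3) (hij : i ≠ j) (hjl : j ≠ l) (hil : i ≠ l)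
    (p q r : k → Polynomial k) (hp : ∀ a b, p (a + b) = p a + p b)
    (hq : ∀ a b, q (a + b) = q a + q b) (hr : ∀ a b, r (a + b) = r a + r b)
    (hpq : ∀ a b, p a * q b = r (a * b)) (m1 : ∀ a, tv i j hij (p a) ∈ Gam k)
    (m2 : ∀ a, tv j l hjl (q a) ∈ Gam k) (m3 : ∀ a, tv i l hil (r a) ∈ Gam k) :
    Heis k (fun a => ir ⟨_, m1 a⟩) (fun a => ir ⟨_, m2 a⟩) (fun a => ir ⟨_, m3 a⟩) where
  x_add a b := by
    rw [← map_mul]
    exact congrArg _ (Subtype.ext ((congrArg (tv i j hij) (hp a b)).trans (tv_add _ _ _ _ _)))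
  y_add a b := by
    rw [← map_mul]
    exact congrArg _ (Subtype.ext ((congrArg (tv j l hjl) (hq a b)).trans (tv_add _ _ _ _ _)))
  z_add a b := by
    rw [← map_mul]
    exact congrArg _ (Subtype.ext ((congrArg (tv i l hil) (hr a b)).trans (tv_add _ _ _ _ _)))
  comm a b := by
    rw [← map_mul, ← map_mul, ← map_mul]
    refine congrArg _ (Subtype.ext ?_)
    have := tv_comm i j l hij hjl hil (p a) (q b)
    rw [hpq] at this
    exact this
  zx a b := by
    rw [← map_mul, ← map_mul]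
    exact congrArg _ (Subtype.ext (tv_comm_left i j l hij hil _ _))
  zy a b := by
    rw [← map_mul, ← map_mul]
    exact congrArg _ (Subtype.ext (tv_comm_right i j l hjl hil _ _))

theorem heis (i : Fin 3) : Heis k (xx i) (xx (i + 1)) (zz i) := by
  have e1 : ∀ a b : k, (C (a + b) : Polynomial k) = C a + C b := fun a b => C_add
  have e2 : ∀ a b : k, (C (a + b) * X : Polynomial k) = C a * X + C b * X := fun a b => by
    rw [C_add, add_mul]
  fin_cases i
  · exact heis_gen 0 1 2 (by decide) (by decide) (by decide) _ _ _ e1 e1 e1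
      (fun a b => C_mul.symm) mem01 mem12 mem02
  · exact heis_gen 1 2 0 (by decide) (by decide) (by decide) _ _ _ e1 e2 e2
      (fun a b => by rw [C_mul]; ring) mem12 mem20 mem10
  · exact heis_gen 2 0 1 (by decide) (by decide) (by decide) _ _ _ e2 e1 e2
      (fun a b => by rw [C_mul]; ring) mem20 mem01 mem21

theorem e3_mem : e3 k ∈ Orb k := ⟨1, by simp⟩

/-- the evaluation at a point of the orbit -/
def evo (v : E3 k) (hv : v ∈ Orb k) : Multiplicative (WSt (Γ := Gam k) (Orb k) (Orb_stable k)).W :=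
  Multiplicative.ofAdd ⟨ev v, AddSubgroup.subset_closure ⟨v, hv, rfl⟩⟩

theorem rho_evo (g : Gam k) (v : E3 k) (hv : v ∈ Orb k) (u : E3 k) (hu : u = g • v) :
    rho (WSt (Γ := Gam k) (Orb k) (Orb_stable k)) g (evo v hv) =
      evo u (hu ▸ Orb_stable k g v hv) := by
  subst hu
  apply Multiplicative.toAdd.injective
  apply Subtype.ext
  funext f
  rw [rho_apply]
  change (g⁻¹ • f).1 v = f.1 (g • v)
  rw [pol_smul_apply, inv_inv]

/-- the element `y` -/
def yy : GG k := SemidirectProduct.inl (evo (e3 k) e3_mem)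

theorem conj_evo (g : Gam k) (v : E3 k) (hv : v ∈ Orb k) (u : E3 k) (hu : u = g • v)
    (hu' : u ∈ Orb k) :
    (SemidirectProduct.inl (evo u hu') : GG k) =
      ir g * SemidirectProduct.inl (evo v hv) * (ir g)⁻¹ := by
  have h := SemidirectProduct.inl_aut
    (φ := rho (WSt (Γ := Gam k) (Orb k) (Orb_stable k))) g (evo v hv)
  rw [rho_evo g v hv u hu, map_inv] at h
  exact h

theorem yy_comm (g : Gam k) (hg : g • e3 k = e3 k) : yy * ir g = ir g * yy := by
  have h := conj_evo g (e3 k) e3_mem (e3 k) hg.symm e3_mem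
  change yy = ir g * yy * (ir g)⁻¹ at h
  rw [eq_mul_inv_iff_mul_eq] at h
  exact h

/-- the points `e₃ + a e₂` -/
def pt (a : k) : E3 k := e3 k + (Pi.single (1 : Fin 3) (C a) : E3 k)

theorem pt_eq (a : k) : pt a = (⟨_, mem12 a⟩ : Gam k) • e3 k := by
  change pt a = tv 1 2 (by decide) (C a) (e3 k)
  rw [tv_apply, pt, e3, Pi.single_eq_same, mul_one]

theorem pt_mem (a : k) : pt a ∈ Orb k := ⟨_, pt_eq a⟩

theorem pt_add (s a : k) : pt (s + a) = pt s + (Pi.single (1 : Fin 3) (C a) : E3 k) := by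
  rw [pt, pt, C_add, Pi.single_add, add_assoc]

theorem closure_top : Subgroup.closure ({g | ∃ i a, g = xx i a} ∪ {(yy : GG k)}) = ⊤ := by
  set D := Subgroup.closure ({g | ∃ i a, g = xx i a} ∪ {(yy : GG k)}) with hD
  have h1 : ∀ (g : E3 k ≃ₗ[Polynomial k] E3 k) (hg : g ∈ Gam k), ir ⟨g, hg⟩ ∈ D := by
    intro g hg
    induction hg using Subgroup.closure_induction with
    | mem g hg =>
      rcases hg with (⟨a, rfl⟩ | ⟨a, rfl⟩) | ⟨a, rfl⟩
      · exact Subgroup.subset_closure (Or.inl ⟨0, a, rfl⟩)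
      · exact Subgroup.subset_closure (Or.inl ⟨1, a, rfl⟩)
      · exact Subgroup.subset_closure (Or.inl ⟨2, a, rfl⟩)
    | one =>
      have : ir (⟨1, Subgroup.one_mem _⟩ : Gam k) = 1 := map_one _
      rw [this]
      exact one_mem D
    | mul g h hg hh h1 h2 =>
      have : ir (⟨g * h, mul_mem hg hh⟩ : Gam k) = ir ⟨g, hg⟩ * ir ⟨h, hh⟩ := by
        rw [← map_mul]
        rfl
      rw [this]
      exact mul_mem h1 h2
    | inv g hg h1 =>
      have : ir (⟨g⁻¹, inv_mem hg⟩ : Gam k) = (ir ⟨g, hg⟩)⁻¹ := by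
        rw [← map_inv]
        rfl
      rw [this]
      exact inv_mem h1
  have hy : (yy : GG k) ∈ D := Subgroup.subset_closure (Or.inr rfl)
  have h2 : ∀ (w : Fn (Pol (E3 k))) (hw : w ∈ Wsub (Orb k)),
      (SemidirectProduct.inl (Multiplicative.ofAdd ⟨w, hw⟩ :
        Multiplicative (WSt (Γ := Gam k) (Orb k) (Orb_stable k)).W) : GG k) ∈ D := by
    intro w hw
    induction hw using AddSubgroup.closure_induction with
    | mem w hw =>
      obtain ⟨v, ⟨g, hg⟩, rfl⟩ := hw
      have h := conj_evo g (e3 k) e3_mem v hg ⟨g, hg⟩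
      have h3 : (SemidirectProduct.inl (evo v ⟨g, hg⟩) : GG k) ∈ D := by
        rw [h]
        exact mul_mem (mul_mem (h1 g.1 g.2) hy) (inv_mem (h1 g.1 g.2))
      exact h3
    | zero =>
      have : (SemidirectProduct.inl (Multiplicative.ofAdd ⟨0, AddSubgroup.zero_mem _⟩ :
        Multiplicative (WSt (Γ := Gam k) (Orb k) (Orb_stable k)).W) : GG k) = 1 := map_one _
      rw [this]
      exact one_mem D
    | add a b ha hb h1 h2 =>
      have : (SemidirectProduct.inl (Multiplicative.ofAdd ⟨a + b, AddSubgroup.add_mem _ ha hb⟩ :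
        Multiplicative (WSt (Γ := Gam k) (Orb k) (Orb_stable k)).W) : GG k) =
        SemidirectProduct.inl (Multiplicative.ofAdd ⟨a, ha⟩) *
          SemidirectProduct.inl (Multiplicative.ofAdd ⟨b, hb⟩) := by
        rw [← map_mul]
        rfl
      rw [this]
      exact mul_mem h1 h2
    | neg a ha h1 =>
      have : (SemidirectProduct.inl (Multiplicative.ofAdd ⟨-a, AddSubgroup.neg_mem _ ha⟩ :
        Multiplicative (WSt (Γ := Gam k) (Orb k) (Orb_stable k)).W) : GG k) =
        (SemidirectProduct.inl (Multiplicative.ofAdd ⟨a, ha⟩))⁻¹ := by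
        rw [← map_inv]
        rfl
      rw [this]
      exact inv_mem h1
  rw [eq_top_iff]
  intro s _
  rw [← SemidirectProduct.inl_left_mul_inr_right s]
  exact mul_mem (h2 _ (Multiplicative.toAdd s.left).2) (h1 _ s.right.2)

theorem td : P_TD := by
  intro k _ _ _
  refine ⟨fun a => CharTwo.add_self_eq_zero a, ⟨xx, zz, yy,
    Multiplicative (WSt (Γ := Gam k) (Orb k) (Orb_stable k)).W, inferInstance,
    SemidirectProduct.inl, fun a => evo (pt a) (pt_mem a), heis, ?_, ?_, ?_, ?_, ?_,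
    closure_top⟩⟩
  · intro a
    refine yy_comm _ ?_
    change tv 0 1 (by decide) (C a) (e3 k) = e3 k
    rw [tv_apply, e3]
    simp
  · intro a
    refine yy_comm _ ?_
    change tv 2 0 (by decide) (C a * X) (e3 k) = e3 k
    rw [tv_apply, e3]
    simp
  · intro a
    exact conj_evo _ _ e3_mem _ (pt_eq a) (pt_mem a)
  · intro a
    apply Multiplicative.toAdd.injective
    apply Subtype.ext
    funext f
    change (4 : ℕ) • (f.1 (pt a)) = 0
    rw [nsmul_eq_mul]
    have : ((4 : ℕ) : ZMod 4) = 0 := rfl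
    rw [this, zero_mul]
  · intro s a b c
    apply Multiplicative.toAdd.injective
    apply Subtype.ext
    funext f
    change f.1 (pt (s + a + b + c)) + f.1 (pt (s + a)) + f.1 (pt (s + b)) + f.1 (pt (s + c)) =
      f.1 (pt (s + a + b)) + f.1 (pt (s + a + c)) + f.1 (pt (s + b + c)) + f.1 (pt s)
    simp only [pt_add]
    exact f.2.2 (pt s) _ _ _

end

end Pool.Agent.W933.CR
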